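import Pool.Agent.Q10.Twist.Geo

/-!
# The twist graph of colorful triangulations is connected for `N ≥ 14`, `N ≡ 2 (mod 3)`

The vertices of the convex `N`-gon are `1, …, N` in this cyclic order, vertex `i` has colour
`i % 3`, and a diagonal joining `a < b` is the pair `(a, b)`.
-/

set_option autoImplicit false

open Q10.Twist

namespace Pool.Agent.Results.MP_b57ad3_co.ConnectedFromFourteen

/-- `e = (a, b)` is a diagonal of the convex `N`-gon with vertices `1, …, N` (`a < b`, not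
neighbours on the polygon). -/
def IsDiag (N : ℕ) (e : ℕ × ℕ) : Prop :=
  1 ≤ e.1 ∧ e.1 + 1 < e.2 ∧ e.2 ≤ N ∧ ¬ (e.1 = 1 ∧ e.2 = N)

/-- The two diagonals `e` and `f` cross: their end points alternate. -/
def Cross (e f : ℕ × ℕ) : Prop :=
  (e.1 < f.1 ∧ f.1 < e.2 ∧ e.2 < f.2) ∨ (f.1 < e.1 ∧ e.1 < f.2 ∧ f.2 < e.2)

/-- `T` is (the set of diagonals of) a triangulation of the `N`-gon: a maximal set of pairwise
non-crossing diagonals. -/
def IsTriangulation (N : ℕ) (T : Set (ℕ × ℕ)) : Prop :=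
  (∀ e ∈ T, IsDiag N e) ∧ (∀ e ∈ T, ∀ f ∈ T, ¬ Cross e f) ∧
    ∀ e, IsDiag N e → (∀ f ∈ T, ¬ Cross e f) → e ∈ T

/-- `a < b` are joined by a diagonal of `T` or by a side of the polygon. -/
def Edge (N : ℕ) (T : Set (ℕ × ℕ)) (a b : ℕ) : Prop :=
  (a, b) ∈ T ∨ (1 ≤ a ∧ b = a + 1 ∧ b ≤ N) ∨ (a = 1 ∧ b = N)

/-- `a < b < c` are the vertices of a triangle of the triangulation `T`. -/
def IsTriangle (N : ℕ) (T : Set (ℕ × ℕ)) (a b c : ℕ) : Prop :=
  a < b ∧ b < c ∧ Edge N T a b ∧ Edge N T b c ∧ Edge N T a c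

/-- Every triangle of `T` has one vertex of each of the three colours. -/
def Colorful (N : ℕ) (T : Set (ℕ × ℕ)) : Prop :=
  ∀ a b c, IsTriangle N T a b c → a % 3 ≠ b % 3 ∧ b % 3 ≠ c % 3 ∧ a % 3 ≠ c % 3

/-- `T'` is obtained from `T` by a twist: there is a hexagon `h₁ < ⋯ < h₆` whose sides are edges
of `T`, and one of its two inscribed triangles `h₁h₃h₅`, `h₂h₄h₆`, all three sides of which are
diagonals of `T`, is replaced by the other one. -/
def Twist (N : ℕ) (T T' : Set (ℕ × ℕ)) : Prop :=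
  ∃ h₁ h₂ h₃ h₄ h₅ h₆ : ℕ, h₁ < h₂ ∧ h₂ < h₃ ∧ h₃ < h₄ ∧ h₄ < h₅ ∧ h₅ < h₆ ∧
    Edge N T h₁ h₂ ∧ Edge N T h₂ h₃ ∧ Edge N T h₃ h₄ ∧ Edge N T h₄ h₅ ∧ Edge N T h₅ h₆ ∧
    Edge N T h₁ h₆ ∧
    ((({(h₁, h₃), (h₃, h₅), (h₁, h₅)} : Set (ℕ × ℕ)) ⊆ T ∧
        T' = (T \ {(h₁, h₃), (h₃, h₅), (h₁, h₅)}) ∪ {(h₂, h₄), (h₄, h₆), (h₂, h₆)}) ∨
      (({(h₂, h₄), (h₄, h₆), (h₂, h₆)} : Set (ℕ × ℕ)) ⊆ T ∧
        T' = (T \ {(h₂, h₄), (h₄, h₆), (h₂, h₆)}) ∪ {(h₁, h₃), (h₃, h₅), (h₁, h₅)}))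

/-- The colorful triangulations of the `N`-gon. -/
abbrev ColorfulTriangulation (N : ℕ) : Type :=
  {T : Set (ℕ × ℕ) // IsTriangulation N T ∧ Colorful N T}

/-- The graph `H_N`: two distinct colorful triangulations are adjacent if one of them is obtained
from the other by a twist. -/
def H (N : ℕ) : SimpleGraph (ColorfulTriangulation N) :=
  SimpleGraph.fromRel fun T T' => Twist N T.1 T'.1

/-- the triangulation of a tree -/
def triSet (N : ℕ) (t : B) : Set (ℕ × ℕ) := {e | e ∈ t.Ed 1 ∧ IsDiag N e}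

theorem edge_triSet {N : ℕ} {t : B} (hN : t.len + 1 = N) {a b : ℕ} :
    Edge N (triSet N t) a b ↔ (a, b) ∈ t.Ed 1 := by
  constructor
  · rintro (h | ⟨h1, h2, h3⟩ | ⟨h1, h2⟩)
    · exact h.1
    · subst h2
      exact B.Ed_side t h1 (by omega)
    · subst h1 h2
      rw [← hN, Nat.add_comm]
      exact B.Ed_root t 1
  · intro h
    have hr := B.Ed_range t h
    simp only at hr
    by_cases h1 : b = a + 1
    · exact Or.inr (Or.inl ⟨hr.1, h1, by omega⟩)
    · by_cases h2 : a = 1 ∧ b = N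
      · exact Or.inr (Or.inr h2)
      · exact Or.inl ⟨h, hr.1, by simp only; omega, by simp only; omega, h2⟩

theorem tri_prop {N : ℕ} {t : B} (ht : B.Ty true t) (hN : t.len + 1 = N) :
    IsTriangulation N (triSet N t) ∧ Colorful N (triSet N t) := by
  refine ⟨⟨fun e he => he.2, fun e he f hf => B.Ed_nc t he.1 hf.1, ?_⟩, ?_⟩
  · rintro ⟨a, b⟩ he hc
    refine ⟨?_, he⟩
    obtain ⟨e1, e2, e3, e4⟩ := he
    simp only at e1 e2 e3 e4
    refine B.Ed_max t e1 (by omega) (by omega) ?_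
    rintro ⟨c, d⟩ hf hcr
    have hr := B.Ed_range t hf
    simp only at hr
    by_cases hd : IsDiag N (c, d)
    · exact hc _ ⟨hf, hd⟩ hcr
    · unfold Cr at hcr
      unfold IsDiag at hd
      simp only at hcr hd
      omega
  · rintro a b c ⟨h1, h2, h3, h4, h5⟩
    rw [edge_triSet hN] at h3 h4 h5
    exact B.Ed_tri t h1 h2 h3 h4 h5 true ht

/-- the colorful triangulation of a tree -/
def tri (N : ℕ) (t : B) (h : B.Ty true t ∧ t.len + 1 = N) : ColorfulTriangulation N :=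
  ⟨triSet N t, tri_prop h.1 h.2⟩

theorem tri_surj {N : ℕ} (hN : 3 ≤ N) (hmod : N % 3 = 2) (T : ColorfulTriangulation N) :
    ∃ t h, tri N t h = T := by
  obtain ⟨T, ⟨hd, hnc, hmax⟩, hcol⟩ := T
  have hlt : ∀ a b, Edge N T a b → 1 ≤ a ∧ a < b ∧ b ≤ N := by
    rintro a b (h | h | h)
    · have := hd _ h
      unfold IsDiag at this
      simp only at this
      omega
    · omega
    · omega
  obtain ⟨t, ht1, ht2⟩ := B.exists_tree (N := N) (G := Edge N T)
    (fun k h1 h2 => Or.inr (Or.inl ⟨h1, rfl, h2⟩)) hlt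
    (by
      intro a b c d h1 h2 hcr
      have r1 := hlt a b h1
      have r2 := hlt c d h2
      rcases h1 with h1 | h1 | h1
      · rcases h2 with h2 | h2 | h2
        · exact hnc _ h1 _ h2 (Or.inl hcr)
        · omega
        · omega
      · omega
      · omega)
    (by
      intro a b h1 h2 h3 h4
      by_cases c1 : b = a + 1
      · exact Or.inr (Or.inl ⟨h1, c1, h3⟩)
      · by_cases c2 : a = 1 ∧ b = N
        · exact Or.inr (Or.inr c2)
        · left
          refine hmax _ ⟨h1, by simp only; omega, h3, c2⟩ ?_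
          rintro ⟨c, d⟩ hf
          exact h4 c d (Or.inl hf))
    (N - 2) 1 le_rfl (by omega) (Or.inr (Or.inr ⟨rfl, by omega⟩))
  have hE : ∀ a b, (a, b) ∈ t.Ed 1 ↔ Edge N T a b := by
    intro a b
    rw [ht2]
    constructor
    · exact fun h => h.1
    · intro h
      have := hlt a b h
      exact ⟨h, by omega, by omega⟩
  have hty : B.Ty true t := by
    rcases B.ty_of_tri t (i := 1) (fun a b c h1 h2 h3 h4 h5 =>
      hcol a b c ⟨h1, h2, (hE _ _).1 h3, (hE _ _).1 h4, (hE _ _).1 h5⟩) with h | h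
    · exact h.2
    · omega
  refine ⟨t, ⟨hty, by omega⟩, Subtype.ext ?_⟩
  ext ⟨a, b⟩
  constructor
  · rintro ⟨h1, h2⟩
    rcases (hE _ _).1 h1 with h | h | h
    · exact h
    · unfold IsDiag at h2
      simp only at h2
      omega
    · exact (h2.2.2.2 h).elim
  · intro h
    exact ⟨(hE _ _).2 (Or.inl h), hd _ h⟩

theorem twist_of_step {N : ℕ} {t t' : B} (hs : B.Step t t') (hN : t.len + 1 = N) :
    Twist N (triSet N t) (triSet N t') := by
  obtain ⟨h₁, h₂, h₃, h₄, h₅, h₆, Y, g1, g2, g3, g4, g5, g6, g7, k1, k2, k3, k4, k5, k6, q1, q2⟩ :=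
    hs.Ed 1
  have hY : Y ⊆ t.Ed 1 := by rw [q1]; exact Set.subset_union_left
  have hY' : Y ⊆ t'.Ed 1 := by rw [q2]; exact Set.subset_union_left
  have ed : ∀ {a b : ℕ}, (a, b) ∈ Y → Edge N (triSet N t) a b :=
    fun h => (edge_triSet hN).2 (hY h)
  refine ⟨h₁, h₂, h₃, h₄, h₅, h₆, g2, g3, g4, g5, g6, ed k1, ed k2, ed k3, ed k4, ed k5, ed k6,
    Or.inl ⟨?_, ?_⟩⟩
  · intro e he
    refine ⟨by rw [q1]; exact Or.inr he, ?_⟩
    simp only [Set.mem_insert_iff, Set.mem_singleton_iff] at he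
    unfold IsDiag
    rcases he with rfl | rfl | rfl <;> simp only <;> omega
  · ext e
    simp only [triSet, q1, q2, Set.mem_diff, Set.mem_union, Set.mem_setOf_eq]
    constructor
    · rintro ⟨h | h, hd⟩
      · left
        refine ⟨⟨Or.inl h, hd⟩, ?_⟩
        intro h'
        have n1 := B.Ed_nc t' (hY' h) (f := (h₂, h₄)) (by rw [q2]; right; simp)
        have n2 := B.Ed_nc t' (hY' h) (f := (h₄, h₆)) (by rw [q2]; right; simp)
        have n3 := B.Ed_nc t' (hY' h) (f := (h₂, h₆)) (by rw [q2]; right; simp)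
        unfold Cr at n1 n2 n3
        simp only [Set.mem_insert_iff, Set.mem_singleton_iff] at h'
        rcases h' with rfl | rfl | rfl <;> simp only at n1 n2 n3 <;> omega
      · exact Or.inr h
    · rintro (⟨⟨h | h, hd⟩, hn⟩ | h)
      · exact ⟨Or.inl h, hd⟩
      · exact (hn h).elim
      · refine ⟨Or.inr h, ?_⟩
        simp only [Set.mem_insert_iff, Set.mem_singleton_iff] at h
        unfold IsDiag
        rcases h with rfl | rfl | rfl <;> simp only <;> omega

theorem eqv_ty {t t' : B} (h : B.Eqv t t') : ∀ b, B.Ty b t ↔ B.Ty b t' := by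
  induction h with
  | rel _ _ h => exact h.ty
  | refl => exact fun _ => Iff.rfl
  | symm _ _ _ ih => exact fun b => (ih b).symm
  | trans _ _ _ _ _ ih1 ih2 => exact fun b => (ih1 b).trans (ih2 b)

theorem reachable_of_eqv {N : ℕ} {t t' : B} (h : B.Eqv t t') :
    ∀ (p : B.Ty true t ∧ t.len + 1 = N) (p' : B.Ty true t' ∧ t'.len + 1 = N),
      (H N).Reachable (tri N t p) (tri N t' p') := by
  induction h with
  | rel t t' h =>
    intro p p'
    by_cases he : tri N t p = tri N t' p'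
    · rw [he]
    · exact SimpleGraph.Adj.reachable
        ((SimpleGraph.fromRel_adj _ _ _).2 ⟨he, Or.inl (twist_of_step h p.2)⟩)
  | refl t => intro p p'; exact SimpleGraph.Reachable.refl _
  | symm t t' _ ih => intro p p'; exact (ih p' p).symm
  | trans t u v h1 _ ih1 ih2 =>
    intro p p'
    have pu : B.Ty true u ∧ u.len + 1 = N := ⟨(eqv_ty h1 true).1 p.1, by rw [← B.Eqv.len h1]; exact p.2⟩
    exact (ih1 p pu).trans (ih2 pu p')

/-- For every `N ≥ 14` with `N ≡ 2 (mod 3)` the graph `H_N` is connected. In particular it is not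
true that `H_N` is disconnected for all `N ≥ 8` with `N ≡ 2 (mod 3)`. -/
theorem result : (∀ N : ℕ, 14 ≤ N → N % 3 = 2 → (H N).Connected) ∧
    ¬ ∀ N : ℕ, 8 ≤ N → N % 3 = 2 → ¬ (H N).Connected := by
  have main : ∀ N : ℕ, 14 ≤ N → N % 3 = 2 → (H N).Connected := by
    intro N hN hmod
    obtain ⟨n, rfl⟩ : ∃ n, N = 3 * n + 2 := ⟨N / 3, by omega⟩
    have hp : B.Ty true (B.L n) ∧ (B.L n).len + 1 = 3 * n + 2 := ⟨B.ty_L n, by rw [B.len_L]⟩
    have key : ∀ T : ColorfulTriangulation (3 * n + 2),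
        (H (3 * n + 2)).Reachable T (tri _ (B.L n) hp) := by
      intro T
      obtain ⟨t, h, rfl⟩ := tri_surj (by omega) hmod T
      exact reachable_of_eqv (B.allEqv (by omega) t h.1 (by omega)) h hp
    haveI : Nonempty (ColorfulTriangulation (3 * n + 2)) := ⟨tri _ (B.L n) hp⟩
    exact ⟨fun T T' => (key T).trans (key T').symm⟩
  exact ⟨main, fun h => h 14 (by norm_num) (by norm_num) (main 14 le_rfl (by norm_num))⟩

end Pool.Agent.Results.MP_b57ad3_co.ConnectedFromFourteen
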